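import Mathlib
import Pool.Agent.V11177.Quiddity

namespace Pool.Agent.Results.MP_8835a9_co.LongIrreducible

open Pool.Agent.V11177.Quiddity Matrix

/-- the alternating list `a, b, a, b, …` of length `n` -/
def alt {α : Type*} : ℕ → α → α → List α
  | 0, _, _ => []
  | n + 1, a, b => a :: alt n b a

section lists

variable {α : Type*}

theorem alt_length (n : ℕ) (a b : α) : (alt n a b).length = n := by
  induction n generalizing a b with
  | zero => rfl
  | succ n ih => simp [alt, ih]

theorem alt_snoc (n : ℕ) (a b : α) :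
    alt n a b ++ [if n % 2 = 0 then a else b] = alt (n + 1) a b := by
  induction n generalizing a b with
  | zero => simp [alt]
  | succ n ih =>
    rw [alt, alt, ← ih b a]
    rcases Nat.mod_two_eq_zero_or_one n with h | h
    · have h' : (n + 1) % 2 = 1 := by omega
      simp [h, h']
    · have h' : (n + 1) % 2 = 0 := by omega
      simp [h, h']

theorem alt_reverse (n : ℕ) (a b : α) :
    (alt n a b).reverse = if n % 2 = 0 then alt n b a else alt n a b := by
  induction n generalizing a b with
  | zero => simp [alt]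
  | succ n ih =>
    rw [alt, List.reverse_cons, ih]
    rcases Nat.mod_two_eq_zero_or_one n with h | h
    · have h' : (n + 1) % 2 = 1 := by omega
      have := alt_snoc n a b
      rw [if_pos h] at this
      simp only [h, h', if_true, this]
      simp [alt]
    · have h' : (n + 1) % 2 = 0 := by omega
      have := alt_snoc n b a
      rw [if_neg (by omega)] at this
      simp only [h, h', if_true]
      simp only [one_ne_zero, if_false]
      exact this

theorem alt_rotate_one (k : ℕ) (a b : α) : (alt (2 * k) a b).rotate 1 = alt (2 * k) b a := by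
  cases k with
  | zero => simp [alt]
  | succ k =>
    have e : 2 * (k + 1) = (2 * k + 1) + 1 := by ring
    rw [e, alt, List.rotate_cons_succ, List.rotate_zero]
    have := alt_snoc (2 * k + 1) b a
    rw [if_neg (by omega)] at this
    exact this

theorem alt_rotate (k j : ℕ) (a b : α) :
    (alt (2 * k) a b).rotate j = alt (2 * k) a b ∨ (alt (2 * k) a b).rotate j = alt (2 * k) b a := by
  induction j with
  | zero => left; simp
  | succ j ih =>
    rw [← List.rotate_rotate]
    rcases ih with h | h
    · right; rw [h, alt_rotate_one]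
    · left; rw [h, alt_rotate_one]

theorem alt_drop (n j : ℕ) (a b : α) :
    (alt n a b).drop j = alt (n - j) a b ∨ (alt n a b).drop j = alt (n - j) b a := by
  induction j generalizing n a b with
  | zero => left; simp
  | succ j ih =>
    cases n with
    | zero => left; simp [alt]
    | succ n =>
      rw [alt, List.drop_succ_cons]
      have e : n + 1 - (j + 1) = n - j := by omega
      rw [e]
      exact (ih n b a).symm

theorem alt_map {β : Type*} (f : α → β) (n : ℕ) (a b : α) :
    (alt n a b).map f = alt n (f a) (f b) := by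
  induction n generalizing a b with
  | zero => rfl
  | succ n ih => simp [alt, ih]

end lists

theorem M_map {N N' : ℕ} (f : ZMod N →+* ZMod N') (l : List (ZMod N)) :
    M (l.map f) = (M l).map f := by
  induction l with
  | nil => simp [M]
  | cons a l ih =>
    rw [List.map_cons, M, M, ih, Matrix.map_mul]
    congr 1
    ext i j
    fin_cases i <;> fin_cases j <;> simp [mat]

theorem M_two {N : ℕ} (n : ℕ) :
    M (alt n (2 : ZMod N) 2) = !![(n : ZMod N) + 1, -(n : ZMod N); (n : ZMod N), 1 - (n : ZMod N)] := by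
  induction n with
  | zero =>
    simp only [alt, M]
    ext i j
    fin_cases i <;> fin_cases j <;> simp
  | succ n ih =>
    rw [alt, M, ih, mat]
    ext i j
    fin_cases i <;> fin_cases j <;> simp [Matrix.mul_apply, Fin.sum_univ_two] <;> ring

theorem M_five_A (n : ℕ) : M (alt (n + 6) (2 : ZMod 5) 3) = M (alt n (2 : ZMod 5) 3) := by
  simp only [alt, M, mul_assoc]
  have h : mat (3 : ZMod 5) * (mat 2 * (mat 3 * (mat 2 * (mat 3 * mat 2)))) = 1 := by decide
  rw [h, mul_one]

theorem M_five_B (n : ℕ) : M (alt (n + 6) (3 : ZMod 5) 2) = M (alt n (3 : ZMod 5) 2) := by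
  simp only [alt, M, mul_assoc]
  have h : mat (2 : ZMod 5) * (mat 3 * (mat 2 * (mat 3 * (mat 2 * mat 3)))) = 1 := by decide
  rw [h, mul_one]

theorem M_five_A' (q r : ℕ) : M (alt (6 * q + r) (2 : ZMod 5) 3) = M (alt r (2 : ZMod 5) 3) := by
  induction q with
  | zero => simp
  | succ q ih =>
    have : 6 * (q + 1) + r = (6 * q + r) + 6 := by ring
    rw [this, M_five_A, ih]

theorem M_five_B' (q r : ℕ) : M (alt (6 * q + r) (3 : ZMod 5) 2) = M (alt r (3 : ZMod 5) 2) := by
  induction q with
  | zero => simp
  | succ q ih =>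
    have : 6 * (q + 1) + r = (6 * q + r) + 6 := by ring
    rw [this, M_five_B, ih]

theorem five_small : ∀ r < 6, (M (alt r (2 : ZMod 5) 3) 0 0 = 1 → r = 0) ∧
    (M (alt r (2 : ZMod 5) 3) 0 0 = -1 → r = 4) ∧ (M (alt r (3 : ZMod 5) 2) 0 0 = 1 → r = 0) ∧
    (M (alt r (3 : ZMod 5) 2) 0 0 = -1 → r = 4) := by
  decide

/-- continuants of the alternating list modulo five -/
theorem five_block (n : ℕ) (x y : ZMod 5) (hxy : (x = 2 ∧ y = 3) ∨ (x = 3 ∧ y = 2)) :
    (M (alt n x y) 0 0 = 1 → n % 6 = 0) ∧ (M (alt n x y) 0 0 = -1 → n % 6 = 4) := by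
  have hn : n = 6 * (n / 6) + n % 6 := (Nat.div_add_mod n 6).symm
  have hr : n % 6 < 6 := Nat.mod_lt _ (by norm_num)
  obtain ⟨h1, h2, h3, h4⟩ := five_small _ hr
  rcases hxy with ⟨rfl, rfl⟩ | ⟨rfl, rfl⟩
  · have e := M_five_A' (n / 6) (n % 6)
    rw [← hn] at e
    rw [e]
    exact ⟨h1, h2⟩
  · have e := M_five_B' (n / 6) (n % 6)
    rw [← hn] at e
    rw [e]
    exact ⟨h3, h4⟩

/-- **Main theorem.** For every `K ≥ 1` there are `N ≥ 2` and an irreducible solution of `(E_N)` of
size at least `N + K`. -/
theorem result (K : ℕ) (hK : 1 ≤ K) :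
    ∃ N : ℕ, 2 ≤ N ∧ ∃ c : List (ZMod N), Irred c ∧ N + K ≤ c.length := by
  set P : ℕ := 30 * K + 1 with hP
  have hcop : Nat.Coprime 5 P := by
    rw [hP]
    have : Nat.Coprime 5 (1 + 5 * (6 * K)) := by simp
    convert this using 1
    ring
  have hcop6 : Nat.Coprime 6 P := by
    rw [hP]
    have : Nat.Coprime 6 (1 + 6 * (5 * K)) := by simp
    convert this using 1
    ring
  let e := ZMod.chineseRemainder hcop
  let f5 : ZMod (5 * P) →+* ZMod 5 := (RingHom.fst _ _).comp (e : ZMod (5 * P) →+* ZMod 5 × ZMod P)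
  let fP : ZMod (5 * P) →+* ZMod P := (RingHom.snd _ _).comp (e : ZMod (5 * P) →+* ZMod 5 × ZMod P)
  have hinj : ∀ z w : ZMod (5 * P), f5 z = f5 w → fP z = fP w → z = w := by
    intro z w h1 h2
    apply e.injective
    exact Prod.ext h1 h2
  set A : ZMod (5 * P) := ((2 : ℕ) : ZMod (5 * P)) with hA
  set B : ZMod (5 * P) := ((P + 2 : ℕ) : ZMod (5 * P)) with hB
  have f5A : f5 A = 2 := by rw [hA, map_natCast]; rfl
  have fPA : fP A = 2 := by rw [hA, map_natCast]; rfl
  have f5B : f5 B = 3 := by
    rw [hB, map_natCast]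
    have : ((P + 2 : ℕ) : ZMod 5) = ((3 : ℕ) : ZMod 5) := by
      rw [ZMod.natCast_eq_natCast_iff]
      rw [hP]
      unfold Nat.ModEq
      omega
    rw [this]; rfl
  have fPB : fP B = 2 := by
    rw [hB, map_natCast]
    push_cast
    rw [ZMod.natCast_self, zero_add]
  -- continuants
  have hblock : ∀ (n : ℕ) (x y : ZMod (5 * P)), ((x = A ∧ y = B) ∨ (x = B ∧ y = A)) → 1 ≤ n →
      n + 3 ≤ 6 * P → ¬ (M (alt n x y) 0 0 = 1 ∨ M (alt n x y) 0 0 = -1) := by
    intro n x y hxy hn1 hn2 hM
    have h5 : f5 (M (alt n x y) 0 0) = M (alt n (f5 x) (f5 y)) 0 0 := by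
      rw [← alt_map, M_map]; rfl
    have hPP : fP (M (alt n x y) 0 0) = (n : ZMod P) + 1 := by
      have : fP (M (alt n x y) 0 0) = M (alt n (fP x) (fP y)) 0 0 := by
        rw [← alt_map, M_map]; rfl
      rw [this]
      have hx : fP x = 2 := by rcases hxy with ⟨rfl, rfl⟩ | ⟨rfl, rfl⟩ <;> assumption
      have hy : fP y = 2 := by rcases hxy with ⟨rfl, rfl⟩ | ⟨rfl, rfl⟩ <;> assumption
      rw [hx, hy, M_two]
      simp
    have h23 : (f5 x = 2 ∧ f5 y = 3) ∨ (f5 x = 3 ∧ f5 y = 2) := by
      rcases hxy with ⟨rfl, rfl⟩ | ⟨rfl, rfl⟩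
      · left; exact ⟨f5A, f5B⟩
      · right; exact ⟨f5B, f5A⟩
    obtain ⟨g1, g2⟩ := five_block n _ _ h23
    rcases hM with h | h
    · rw [h, map_one] at h5 hPP
      have m6 : 6 ∣ n := Nat.dvd_of_mod_eq_zero (g1 h5.symm)
      have mP : P ∣ n := by
        rw [← ZMod.natCast_eq_zero_iff]
        linear_combination -hPP
      have := Nat.le_of_dvd (by omega) (hcop6.mul_dvd_of_dvd_of_dvd m6 mP)
      omega
    · rw [h, map_neg, map_one] at h5 hPP
      have h64 := g2 h5.symm
      have m6 : 6 ∣ n + 2 := by omega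
      have mP : P ∣ n + 2 := by
        rw [← ZMod.natCast_eq_zero_iff]
        push_cast
        linear_combination -hPP
      have := Nat.le_of_dvd (by omega) (hcop6.mul_dvd_of_dvd_of_dvd m6 mP)
      omega
  refine ⟨5 * P, by omega, alt (2 * (3 * P)) A B, ⟨?_, ?_, ?_⟩, ?_⟩
  · left
    have h5 : (M (alt (2 * (3 * P)) A B)).map f5 = 1 := by
      rw [← M_map, alt_map, f5A, f5B]
      have := M_five_A' P 0
      rw [show 2 * (3 * P) = 6 * P + 0 by ring, this]
      rfl
    have hPP : (M (alt (2 * (3 * P)) A B)).map fP = 1 := by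
      rw [← M_map, alt_map, fPA, fPB, M_two]
      push_cast
      rw [ZMod.natCast_self]
      ext i j
      fin_cases i <;> fin_cases j <;> simp
    ext i j
    apply hinj
    · have := congr_fun (congr_fun h5 i) j
      rw [Matrix.map_apply] at this
      rw [this, Matrix.one_apply, Matrix.one_apply]
      split_ifs <;> simp
    · have := congr_fun (congr_fun hPP i) j
      rw [Matrix.map_apply] at this
      rw [this, Matrix.one_apply, Matrix.one_apply]
      split_ifs <;> simp
  · rw [alt_length]; omega
  · rintro ⟨a, b, d, _, hb, hla, hlb, ⟨a1, al, an, b1, be, bm, rfl, rfl, hd⟩, heq⟩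
    -- d is alternating
    have hdalt : ∃ x y : ZMod (5 * P), ((x = A ∧ y = B) ∨ (x = B ∧ y = A)) ∧
        d = alt (2 * (3 * P)) x y := by
      have hrot : ∀ x y : ZMod (5 * P), ((x = A ∧ y = B) ∨ (x = B ∧ y = A)) →
          (alt (2 * (3 * P)) x y).IsRotated d →
          ∃ x y : ZMod (5 * P), ((x = A ∧ y = B) ∨ (x = B ∧ y = A)) ∧
            d = alt (2 * (3 * P)) x y := by
        rintro x y hxy ⟨j, hj⟩
        rcases alt_rotate (3 * P) j x y with h | h
        · exact ⟨x, y, hxy, by rw [← hj, h]⟩
        · exact ⟨y, x, by tauto, by rw [← hj, h]⟩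
      rcases heq with h | h
      · exact hrot A B (Or.inl ⟨rfl, rfl⟩) h
      · rw [alt_reverse, if_pos (by omega)] at h
        exact hrot B A (Or.inr ⟨rfl, rfl⟩) h
    obtain ⟨x, y, hxy, hd2⟩ := hdalt
    simp only [List.length_cons, List.length_append, List.length_nil] at hla hlb
    have hlen : d.length = 2 * (3 * P) := by rw [hd2, alt_length]
    have hlen2 : d.length = al.length + be.length + 2 := by
      rw [hd]
      simp only [List.length_cons, List.length_append]
      ring
    have hbe : be = d.drop (al.length + 2) := by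
      rw [hd, List.drop_succ_cons]
      have : al ++ (an + b1) :: be = (al ++ [an + b1]) ++ be := by simp
      rw [this]
      have hl : al.length + 1 = (al ++ [an + b1]).length := by simp
      rw [hl, List.drop_left]
    have hK2 : M be 0 0 = 1 ∨ M be 0 0 = -1 := by
      obtain ⟨ep, hep, hMb⟩ := (isSol_iff _).1 hb
      rw [M_split] at hMb
      have := congr_fun (congr_fun hMb 1) 1
      simp only [mat, Matrix.mul_apply, Fin.sum_univ_two, Matrix.smul_apply,
        Matrix.of_apply, Matrix.cons_val', Matrix.cons_val_zero, Matrix.cons_val_one,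
        smul_eq_mul, Matrix.one_apply_eq] at this
      rcases hep with rfl | rfl
      · right
        linear_combination -this
      · left
        linear_combination -this
    rw [hd2] at hbe
    have hlbe : 2 * (3 * P) - (al.length + 2) = be.length := by omega
    rcases alt_drop (2 * (3 * P)) (al.length + 2) x y with h | h
    · rw [h, hlbe] at hbe
      rw [hbe] at hK2
      exact hblock be.length x y hxy (by omega) (by omega) hK2
    · rw [h, hlbe] at hbe
      rw [hbe] at hK2
      exact hblock be.length y x (by tauto) (by omega) (by omega) hK2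
  · rw [alt_length]
    omega

end Pool.Agent.Results.MP_8835a9_co.LongIrreducible
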